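import Pool.Agent.Run7.h199.FD.Gen

/-!
# A motive is finite-dimensional if 51 percent of its tensor powers are

`C` is a `ℚ`-linear pseudo-abelian rigid symmetric monoidal category with finite direct sums in which the
endomorphisms of the unit object are the rational numbers, for example the category of Chow motives over
a field, and `R` is a realisation in finite dimensional super vector spaces, for example a Weil cohomology
theory; `b(M)` is the dimension of the realisation of `M`, so `b(h(X))` is the sum of the Betti numbers of
`X`.

`S` is a class of objects which contains the unit and is stable under direct sums, tensor products and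
duals (`TensorClosed`), for example

* all objects; or
* the finite sums of Tate twists of motives of abelian varieties; or the finite sums of Tate motives.

Let `c(M)` be the largest dimension of a direct summand of `M` which is the sum of an evenly and an oddly
finite-dimensional object (in the sense of Kimura: some exterior, respectively symmetric, power
vanishes), both direct summands of objects in `S` (`KS S`). So for the class of all objects `c(M)` is the
largest dimension of a finite-dimensional direct summand (for the second example, of a direct summand of
abelian type), and `c(M) ≤ b(M)`, with equality if and only if `M` is such a direct summand up to a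
phantom, a direct summand with zero realisation (`UpToPhantom`). If there are no phantoms in `M` this
means that `M` is finite-dimensional in the sense of Kimura and a direct summand of an object in `S`.

**Theorem.** For all `M`, `N`

  `c(M) c(N) ≤ c(M ⊗ N) ≤ c(M) c(N) + (b(M) - c(M)) (b(N) - c(N))`.

If `c(M) < b(M)`, then for all `n`

  `c(M^n) ≤ (b^n + (b - 2)^n) / 2` or `c(M^(n+1)) ≤ (b^(n+1) + (b - 2)^(n+1)) / 2`, where `b = b(M)`.

So `X` is finite-dimensional in the sense of Kimura (or its motive is of abelian type), up to a direct
summand without cohomology, if for all large `n`, or for two consecutive `n` with `(1 - 2 / b)^n < 0.02`, a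
direct summand of the motive of `X^n` of dimension at least `0.51 b^n` is; nothing is assumed about the other
49 percent of the motives of the powers, and no relation between the direct summands for different `n`.
Even the share `1 / 2 + f(b^n)` suffices, if `f(y) y^κ → ∞` for all `κ > 0`, for example `f(y) = 1 / log y`.

In this generality the constant `1 / 2` and the bound are sharp: let `X` be the generator of Deligne's
category `Rep(O_t)` for `t = 1` (Karoubian, over `ℚ`), realised by `Rep(O(1))`; `X` has dimension one and
is not Kimura-finite, and `X ⊗ X` is the sum of the unit and a phantom. For `M = 1 ⊕ X` one has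
`2 c(M^n) = b^n` for all `n ≥ 1`.

The classes `KS S` are stable under direct sums, direct summands, tensor products (with the rule of signs)
and duals, and the endomorphisms of their objects are algebraic over `ℚ` (`FDClass`; for the class of
all objects these are theorems of Kimura, all are proved here in Lean). Only this is used.

The proof. Choose the direct summands in the even class `E 1` and in the odd class `E (-1)` of the largest
dimensions. They can be
modified so that they are complementary; let `e_M` be the idempotent of their sum. If `f` factors
through an object in `E 1` or `E (-1)` then the trace of `f (1 - e_M)` is zero: otherwise `(1 - e_M) f (1 - e_M)`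
gives an endomorphism of an object in the class which is algebraic and not nilpotent, and with the
idempotent of its invertible part one gets a further direct summand of `M`. Now
`q = e_M ⊗ (1 - e_N) + (1 - e_M) ⊗ e_N` has trace zero against all endomorphisms `a` of `M ⊗ N` which factor
through an object in the class: the partial trace of `a` against the even or odd part of `e_M` factors through
the tensor product of this object and the dual of the direct summand of `M`, so it has trace zero
against `1 - e_N`. Hence for each direct summand of `M ⊗ N` in the class, with idempotent `g`, all powers of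
`q g` have trace zero, `q g` is nilpotent in the realisation, and `1 - q` is injective on the image of `g`. The
rank of `1 - q = e_M ⊗ e_N + (1 - e_M) ⊗ (1 - e_N)` is the right side of the inequality. It says that
`2 c(M^(n+1)) - b^(n+1)` is at most `(2 c(M) - b) (2 c(M^n) - b^n)`.
-/

set_option autoImplicit false

open CategoryTheory Limits MonoidalCategory Filter

namespace Pool.Agent.Results.MP_868bb7_ag.FiftyOnePercent

open Pool.Agent.Y112.SR Pool.Agent.Y112.KD Pool.Agent.R484.NC Pool.Agent.R905 Run7.h199.FD

universe v u w

/-- **The fifty-one percent law for finite-dimensional motives.** -/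
theorem result {C : Type u} [Category.{v} C] [Preadditive C] [Linear ℚ C] [MonoidalCategory C]
    [MonoidalPreadditive C] [MonoidalLinear ℚ C] [SymmetricCategory C] [RightRigidCategory C]
    [HasBinaryBiproducts C] [IsIdempotentComplete C] (hU : UnitQ C) {K : Type w} [Field K]
    (R : SuperRealisation C K) (S : C → Prop) (hS : TensorClosed S) :
    (∀ M : C, IsGreatest {d | ∃ p : Part (KS S) M, p.dim R = d} (cdim R (KS S) M)) ∧
    (∀ M : C, cdim R (KS S) M ≤ totalDim R M ∧
      (cdim R (KS S) M = totalDim R M ↔ UpToPhantom R (KS S) M)) ∧
    (∀ M : C, (∀ e : M ⟶ M, e ≫ e = e → R.H.map e = 0 → e = 0) →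
      (UpToPhantom R (KS S) M ↔
        IsKimuraFinite M ∧ ∃ (T : C) (i : M ⟶ T) (r : T ⟶ M), S T ∧ i ≫ r = 𝟙 M)) ∧
    (∀ M N : C, cdim R (KS S) M * cdim R (KS S) N ≤ cdim R (KS S) (M ⊗ N) ∧
      cdim R (KS S) (M ⊗ N) ≤ cdim R (KS S) M * cdim R (KS S) N +
        (totalDim R M - cdim R (KS S) M) * (totalDim R N - cdim R (KS S) N)) ∧
    (∀ (M : C) (n : ℕ), totalDim R (pow M n) = totalDim R M ^ n) ∧
    (∀ M : C, ¬ UpToPhantom R (KS S) M → ∀ n, HalfAt R (KS S) M n) ∧
    (∀ ε : ℝ, 0 < ε → ε ≤ 1 / 2 → ∀ M : C, (UpToPhantom R (KS S) M ↔
      ∃ n₀, ∀ n ≥ n₀, MoreThanHalf R (KS S) (fun _ => ε) (pow M n))) ∧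
    (∀ f : ℕ → ℝ, (∀ y, 0 ≤ f y) →
      (∀ κ : ℝ, 0 < κ → Tendsto (fun y : ℕ => f y * (y : ℝ) ^ κ) atTop atTop) →
      ∀ M : C, (∃ n₀, ∀ n ≥ n₀, MoreThanHalf R (KS S) f (pow M n)) → UpToPhantom R (KS S) M) :=
  have hE := fdClass_of R hU hS
  ⟨cdim_isGreatest hE, fun M => ⟨cdim_le hE M, cdim_eq_iff hE M⟩,
    fun _ hM => kimura_iff_of R hS hM,
    fun M N => ⟨le_cdim_tensor hE M N, cdim_tensor_le hU hE M N⟩, totalDim_pow,
    fun _ hM n => halfAt hU hE hM n, fun ε h0 h1 M => iffConst hU hE ε h0 h1 M,
    fun f hf0 hf M h => fromRate hU hE f hf0 hf M h⟩

end Pool.Agent.Results.MP_868bb7_ag.FiftyOnePercent
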