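import Pool.Agent.Run7.h200.Mot
import Pool.Agent.R905.Defs

/-!
# Group actions and Kimura finite-dimensionality

Let `C` be a `ℚ`-linear pseudo-abelian category, for example the category of Chow motives, and let a
finite group `G` act on the object `M`, for example on `M = h(X)` by automorphisms of the smooth
projective variety `X`. For a subgroup `H` the invariants `M^H`, the direct summand of `M` given by
the idempotent `(1 / |H|) ∑ h`, are the motive of the quotient `X/H`. Let `K` be a class of objects
which is closed under direct sums and direct summands (`Closed`), for example the objects which are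
finite-dimensional in the sense of Kimura (`IsKimuraFinite`; the closedness is a theorem of Kimura).
`InvariantsIn K a H` says that `M^H` is in `K`.

The theorem: `M^H` is in `K` if the `M^(E_i)` are in `K` and every irreducible rational
representation of `G` which occurs in `M` outside of `K` and has a nonzero vector fixed by `H` has a
nonzero vector fixed by some `E_i`. So `M` is in `K` if and only if

* the invariants of all subgroups `H` of `N` with cyclic quotient `N/H` are in `K`, if `N` is a
  commutative subgroup of `G`; or the invariants of the components of a partition of a subgroup;
* the invariants of `⟨c⟩` and of `[G, c]` are in `K`, if `c` is an involution; those of `⟨c⟩` alone,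
  if `c` is contained in a nonabelian simple subgroup;
* the invariants of `A_k` are in `K`, if `A_n` acts on `M` and `(k - 1) ^ 2 < n`; or the invariants
  of `A_k` and of the even permutations preserving the residue classes modulo `k - 1`, for any
  `2 ≤ k ≤ n`.

If `M` is not in `K`, but the invariants of all subgroups of prime order are, then an irreducible
representation of `G` on whose nonzero vectors `G` acts freely occurs in `M` outside of `K`, the
commutative subgroups and the subgroups of order `p q` of `G` are cyclic, and `G` has at most one
involution.

Proof: the elements of the rational group ring which act on `M` through objects of `K` are a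
two-sided ideal, and this ideal contains the norm element of `H` if and only if `M^H` is in `K`. If
the norms of the `E_i` generate the unit ideal then `M` is a direct summand of a direct sum of
copies of the `M^(E_i)`.
-/

set_option autoImplicit false

open CategoryTheory CategoryTheory.Limits MonoidalCategory Run7.h200.Mot Run7.h200.Van
  Pool.Agent.R905

universe v u

namespace Pool.Agent.Results.MP_868bb7_ag.GroupActions

/-- **Group actions and direct summands**, for a class `K` of objects. -/
def Statement {C : Type u} [Category.{v} C] [Preadditive C] [Linear ℚ C] (K : C → Prop) : Prop :=
  ∀ (M : C) (G : Type) [Group G] [Finite G] (a : G →* End M),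
    (∀ (H : Subgroup G) (ι : Type) (E : ι → Subgroup G), DominatedOutside K a H E →
      (∀ i, InvariantsIn K a (E i)) → InvariantsIn K a H) ∧
    (∀ N : Subgroup G, (∀ x ∈ N, ∀ y ∈ N, x * y = y * x) →
      (K M ↔ ∀ H : Subgroup G, CyclicQuotient N H → InvariantsIn K a H)) ∧
    (∀ (ι : Type) (E : ι → Subgroup G) (N : Subgroup G), Partitions N E →
      (K M ↔ ∀ i, InvariantsIn K a (E i))) ∧
    (∀ c : G, c * c = 1 → (K M ↔
      InvariantsIn K a (Subgroup.zpowers c) ∧ InvariantsIn K a (commSub c))) ∧
    (∀ c : G, InSimple c → c ≠ 1 → c * c = 1 →
      (K M ↔ InvariantsIn K a (Subgroup.zpowers c))) ∧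
    (∀ (n k : ℕ) (e : alternatingGroup (Fin n) →* G), 2 ≤ k → (k - 1) ^ 2 < n →
      (K M ↔ InvariantsIn K a ((altSub n k).map e))) ∧
    (∀ (n k : ℕ) (e : alternatingGroup (Fin n) →* G), 2 ≤ k → k ≤ n →
      (K M ↔ InvariantsIn K a ((altSub n k).map e) ∧
        InvariantsIn K a ((classSub n (k - 1)).map e))) ∧
    (¬ K M → (∀ P : Subgroup G, (Nat.card P).Prime → InvariantsIn K a P) →
      FreeOutside K a ∧ CyclicSubgroups G)

/-- **Group actions and Kimura finite-dimensionality.** The `Statement` is true for all classes of
objects which are closed under direct sums and summands, and if this is the case for the objects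
which are finite-dimensional in the sense of Kimura (theorem of Kimura) then it is true for them. -/
theorem result {C : Type u} [Category.{v} C] [Preadditive C] [Linear ℚ C] [MonoidalCategory C]
    [SymmetricCategory C] [HasBinaryBiproducts C] [IsIdempotentComplete C] :
    (∀ K : C → Prop, Closed K → Statement K) ∧
    (Closed (IsKimuraFinite : C → Prop) → Statement (IsKimuraFinite : C → Prop)) :=
  ⟨fun _ hK _ _ _ _ a => main hK a, fun hK _ _ _ _ a => main hK a⟩

end Pool.Agent.Results.MP_868bb7_ag.GroupActions
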