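import Pool.Agent.Run7.h848.XG.Uniform

/-!
# Kimura finite-dimensionality: one power decides, with an explicit bound

Let `X` be a smooth projective complex variety which satisfies the sign conjecture `C⁺` (the projector of
`H^*(X)` to the even cohomology is algebraic: surfaces, complete intersections, products of these, all
Kimura finite-dimensional varieties, …). Let `b` be the sum of its Betti numbers, `M = b + 1`, and

  `N(b) = 8 (b + 1) b ^ (4 (b + 1))`.

For `n ≥ 0` let `ρ(n)` be the rank of the group of the cycles of all codimensions on `X ^ n` modulo numerical
equivalence, `σ(n) ≥ ρ(n)` the dimension, maybe infinite, of the space of the cycles on `X ^ n` modulo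
smash-nilpotent cycles, and `σ_k(n) ≤ σ(n)` the dimension of the image of the cycles in the `k`-th step of any
filtration of Bloch–Beilinson type (a family of spaces of cycles which is stable under correspondences and contains
the compositions of `k` homologically trivial correspondences).

**Theorem.** (1) (one power decides) If `σ(N) ≤ b ^ N` for the ONE number `N = N(b)`, then `X` is finite-dimensional
in the sense of Kimura. (One always has `ρ(N) ≤ b ^ N`; the bound for `σ(N)` is satisfied if smash-nilpotent and
numerically trivial cycles agree on `X ^ N`, but also if `σ(N)` is any other number up to `b ^ N`. As `σ` can be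
replaced by the dimension of the cycles modulo any finer adequate equivalence, it is sufficient that
`dim A^*(X ^ N) ≤ b ^ N` in any system of cycles on the powers of `X` which is closed under compositions, products
and projectors and contains the even projector, for instance the tautological rings.)

(2) (gap) Let `y` be an endomorphism of (the motive of) `X ^ m`, `m ≥ 0`, which is not nilpotent, and let
`S_m(n) = ∑ i ≤ n, (n choose i) ρ(2 m (n - i))`. If `y` is numerically trivial then `σ(2 m n) ≥ S_m(n)` for all `n`.
If `y` is homologically trivial then `σ_k(n') ≥ S_m(n)` for all `n ≥ 0`, `k ≥ 1` and `n' ≥ 2 m (n + k)`.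

(3) `S_m(n) ≥ (b ^ (2 m) + 1) ^ n / (m n + 1) ^ (b ^ 2)` for all `m` and `n`.

(4) If the homologically trivial correspondences from `X ^ (b + 1)` to itself are nilpotent, then `X` is
finite-dimensional (so they are nilpotent for all powers). In other words: if `X` is not finite-dimensional then (2)
holds with `m = b + 1`, `y` homologically trivial.

So if `X` is not finite-dimensional then the growth rates `liminf σ(n) ^ (1 / n)` and `liminf σ_k(n) ^ (1 / n)` are at
least `c(b) = (b ^ (2 b + 2) + 1) ^ (1 / (2 b + 2)) > b`, a number which depends on `b` only: if this rate is less than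
`c(b)` for one `k`, then `X` is finite-dimensional.

By a theorem of Deligne `σ(2 n) ≥ n!` if no Schur functor kills the motive of `X`; the theorem is about the other
case. For varieties with algebraic even cohomology see `OneRelation` (helper570): better constants, by a different
method. (This file replaces the file `ExponentialGap` of the same author, which had (2) and (3) for the dimension of
the cycles, with a non-explicit `c > b` in place of (1) and (4).)

The setting. `C` is the category of Chow motives (graded pieces added), or of the motives defined by a system of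
cycles as above, `T = h(X)`, which is self-dual, `tp T n = h(X ^ n)`, `R` the singular cohomology with coefficients in
an algebraically closed field, `bt` the sum of the Betti numbers.

Proof of (2). If the dimension is finite, there is an idempotent `p ≠ 0` among the numerically trivial
endomorphisms of `X ^ m` (Fitting). Let `P = X ^ m × X ^ m` and `z` the cycle `p` on `P`. The motive `P` is the sum of
`A` and `B`, where `B` is the image of `1 × p`, with `z` in `B` and all endomorphisms of `B` numerically
trivial. The powers of `P` are the sums of `2 ^ n` pieces, products of copies of `A` and of `B`. In a piece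
with `i` factors `B` we insert `z` into these factors and arbitrary cycles in the product of the others.
They are independent modulo numerical equivalence: a contraction with a cycle on the product of the
factors `A` reduces this to the claim that the product of `i` copies of `z` is not zero (nor smash-nilpotent), and
this is true since its contractions give `p ∘ ⋯ ∘ p = p ≠ 0`. Numerical equivalence does not see the difference of
`A` and `P`. (3) is the binomial theorem and the bound `ρ(2 k) ≥ b ^ (2 k) / (k + 1) ^ (b ^ 2)` of the starting
tree (`N64/AF`). (4): if the homologically trivial endomorphisms of `T ^ (b + 1)` are nilpotent then so are those of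
the summand `T`; so `T` is a sum of an even part `E` and an odd part `O`. The antisymmetrizer of `E ^ (e + 1)`,
`e ≤ b` the dimension of `E`, is homologically trivial (its trace is zero) and `E ^ (e + 1)` is a summand of
`T ^ (b + 1)`, so it is nilpotent and idempotent, so zero. (1): for `n = 4 b ^ (4 M)` one has
`(b ^ (2 M) + 1) ^ n > (M n + 1) ^ (b ^ 2) b ^ (2 M n)`, and `N(b) = 2 M n`.
-/

set_option autoImplicit false

open CategoryTheory MonoidalCategory
open Pool.Agent.Y112.SR Pool.Agent.Y112.KD Pool.Agent.N64.AF Pool.Agent.Run7.h848.XG

namespace Pool.Agent.Results.MP_868bb7_ag.OnePowerDecides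

universe v u w

/-- Kimura finite-dimensionality is decided by one power; explicit uniform growth otherwise. -/
theorem result {C : Type u} [Category.{v} C] [Preadditive C] [MonoidalCategory C]
    [MonoidalPreadditive C] [SymmetricCategory C] [RightRigidCategory C]
    [Linear ℚ C] [MonoidalLinear ℚ C] [IsIdempotentComplete C]
    {K : Type w} [Field K] [IsAlgClosed K] [Algebra ℚ K] {R : SuperRealisation C K}
    {T : C} [ExactPairing T T] (h : IsPow ℚ R T) :
    (dimE ℚ ((𝟙_ C ⟶ tp T (decisive (bt R T))) ⧸ smashSub ℚ (tp T (decisive (bt R T)))) ≤
      (bt R T ^ decisive (bt R T) : ℕ) → Pool.Agent.R905.IsKimuraFinite T) ∧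
    (∀ (m : ℕ) (y : End (tp T m)), ¬ IsNilpotent y →
      (NumTriv (y : tp T m ⟶ tp T m) → ∀ n : ℕ,
        ((∑ i ∈ Finset.range (n + 1), n.choose i * numRank ℚ (tp T (2 * m * (n - i))) : ℕ) : ℕ∞) ≤
          dimE ℚ ((𝟙_ C ⟶ tp T (2 * m * n)) ⧸ smashSub ℚ (tp T (2 * m * n)))) ∧
      (R.H.map (y : tp T m ⟶ tp T m) = 0 →
        ∀ (k n N : ℕ) (S₀ : ∀ Z : C, Submodule ℚ (𝟙_ C ⟶ Z)), 0 < k → IsDeep R k S₀ →
          2 * m * (n + k) ≤ N →
        ((∑ i ∈ Finset.range (n + 1), n.choose i * numRank ℚ (tp T (2 * m * (n - i))) : ℕ) : ℕ∞) ≤
          deepDim S₀ (tp T N))) ∧
    (∀ m n : ℕ, (bt R T ^ (2 * m) + 1) ^ n ≤ (m * n + 1) ^ (bt R T ^ 2) *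
      ∑ i ∈ Finset.range (n + 1), n.choose i * numRank ℚ (tp T (2 * m * (n - i)))) ∧
    ((∀ y : End (tp T (bt R T + 1)), R.H.map (y : tp T (bt R T + 1) ⟶ tp T (bt R T + 1)) = 0 →
      IsNilpotent y) → Pool.Agent.R905.IsKimuraFinite T) := by
  refine ⟨one_power h, fun m y hy => ⟨fun hn => ?_, fun h0 k n N S₀ hk hS hN => ?_⟩, sum_ge h,
    kimura_of_nil_one h⟩
  · exact many_smash h m fun h1 => hy (h1 y hn)
  · obtain ⟨i, r, hir⟩ := retract_le h hN
    exact (many_deep h y h0 hy hk hS n).trans (deepDim_le hS i r hir)

end Pool.Agent.Results.MP_868bb7_ag.OnePowerDecides
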