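import Pool.Agent.Run7.h570.GAP.OddMain

/-!
# One relation suffices for Kimura finite-dimensionality; the gap `b → b + 4`

Let `X` be a smooth projective variety over a field of characteristic zero whose cohomology is the direct sum of
a part spanned by `b` algebraic classes `a_i` with rational intersection numbers (and an invertible
intersection matrix `G`) and of a part of odd degree and of dimension `2 n`. For instance `X` is a smooth
quintic threefold, with `a_i` the powers of the hyperplane class, `b = 4` and `2 n = 204`; or any
hypersurface or complete intersection of odd dimension. Let

`t = Δ - ∑ (G⁻¹)_(i, j) a_i × a_j ∈ CH(X × X)_ℚ`,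

the projector to the odd part, so that `X` is finite-dimensional in the sense of Kimura if and only if
`Sym^N (X, t) = 0` for some `N`.

Theorem.

1. The following are equivalent:
   * the sum of the products `t_(i_1, j_1) ⋯ t_(i_(n+1), j_(n+1))` over all partitions of the `2 n + 2`
     factors of `X ^ (2 n + 2)` into pairs is zero in `CH(X ^ (2 n + 2))`;
   * `Sym^(2 n + 1) (X, t) = 0`;
   * `Sym^N (X, t) = 0` for some `N`.
2. If these conditions are not satisfied (`X` is not finite-dimensional), then
   * **growth**: at least `((b + 2 n + 4) ^ m + (b - 2 n - 4) ^ m) / (2 binomial(⌊m / 2⌋ + D, D))`,
     `D = (2 n + 3) (2 n + 5)`, of the products on `X ^ m` of disjoint diagonals and classes `a_i` (each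
     factor of `X ^ m` used once) are linearly independent. If `X` is finite-dimensional, then the
     span of these products embeds into cohomology, and has the dimension at most `(b + 2 n) ^ m`. So the
     exponential rate is at most the total Betti number `b + 2 n`, or at least `b + 2 n + 4`.
   * **the relations**: every element `c` of the group ring of the symmetric group `S_k` which acts by zero
     on the `k`-th tensor power of `(X, t)` acts by zero on the `k`-th tensor power of the super vector
     space with `2` even and `2 n + 2` odd dimensions.
   * **one relation suffices**: for all `m < 6 (n + 2)` the `(m - 1)!!` products of the pull-backs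
     of `t` to `X ^ m` for the partitions of the factors into pairs are linearly independent. For the
     quintic threefold: one nontrivial linear relation with rational coefficients between the
     `(m - 1)!!` products on one `X ^ m`, `m < 624`, is sufficient for `X` to be finite-dimensional.

Here `2 n = 0` is possible, and this case is my theorem on surfaces with `p_g = q = 0`.

Proof. The relations which are linear in each factor are stable under permutations and under the integration
over two factors of the product with `t`. We restitute: a relation with labels in place of the factors
is a polynomial in the entries of a symmetric matrix of variables `x_(i, j)`. A relation which is minimal with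
respect to the labels is a highest weight vector, and its contraction in the last label of weight `μ` is
its derivative with respect to `x_(b, b)`, times `-2 n - b + μ - 2`. So all labels can be removed, until
`1` or `x_(0, 0) ^ (n + 1)` remains, if the relation does not hold on the super space. Restitution is
injective on the invariants of the stabilizer of the labels, so the latter gives back the relation between
all pairings. The identity `y z ∂ ...` in the ideal generated by the polarizations of `x_(0, 0) ^ (n + 1)` gives
`x_(0, 1) ^ (2 n + 1)`, that is `Sym^(2 n + 1) = 0`.
-/

set_option autoImplicit false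

open Pool.Agent.Run7.h570.GAP

namespace Pool.Agent.Results.MP_868bb7_ag.OneRelation

universe u

/-- Let `R` be a system `A(m)` of rings with the formal properties of the Chow rings of the powers of a
variety, `a_i` classes in `A(1)` with the invertible symmetric intersection matrix `G` of rank `b`, let the
Euler number be `b - 2 n`, and `t = tr R a G` the complement of the part of the diagonal given by the `a_i`. -/
theorem result {R : PowerRings.{u}} {b : ℕ} {a : Fin b → R.A 1} {G : Matrix (Fin b) (Fin b) ℚ}
    (h : PreTate R a G) (n : ℕ)
    (he : R.push (R.push (R.diag * R.diag)) = algebraMap ℚ (R.A 0) (b - 2 * n)) :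
    [HafZero (tr R a G) (n + 1), SymZero (tr R a G) (2 * n + 1),
      ∃ N, SymZero (tr R a G) N].TFAE ∧
    ((∀ N, ¬ SymZero (tr R a G) N) →
      (∀ m : ℕ, ∃ (N : ℕ) (v : Fin N → R.A m), (∀ j, IsProduct R a m (v j)) ∧
        LinearIndependent ℚ v ∧ ((b : ℤ) + (2 * n + 4 : ℕ)) ^ m + ((b : ℤ) - (2 * n + 4 : ℕ)) ^ m ≤
          2 * ((m / 2 + (2 * n + 3) * (2 * n + 5)).choose ((2 * n + 3) * (2 * n + 5)) : ℕ) * N) ∧
      (∀ (k : ℕ) (c : Equiv.Perm (Fin k) → ℚ),
        ∑ σ, c σ • ∏ i, R.pull ![Fin.castAdd k i, Fin.natAdd k (σ i)] (tr R a G) = 0 →
          SuperRel (fun x : Fin (2 * n + 4) => decide (2 ≤ (x : ℕ))) c) ∧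
      (∀ m < 6 * (n + 2), LinearIndependent ℚ (fun τ : Matching m => mprod (tr R a G) τ))) :=
  h.oddGap n he

end Pool.Agent.Results.MP_868bb7_ag.OneRelation
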